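import Pool.Agent.H95.LC.QuadAll
import Pool.Agent.H95.LC.Top
import Pool.Agent.H95.LR.All
import Pool.Agent.H95.LR.Lin
import Pool.Agent.H95.LR.Sharp
import Pool.Agent.H95.LR.Base
import Pool.Agent.H18.LC.Lagrange
import Pool.Agent.H18.LC.Sign
import Pool.Agent.H95.LX.Loc
import Pool.Agent.H95.LX.Rank

namespace Pool.Agent.Results.MP_0ea415_nt.CounterexampleStructure

open Pool.Agent.H1.PC
open Pool.Agent.H18.LC
open Pool.Agent.H95.LC (runA runA_sum runA_abs runA_rcp)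
open Pool.Agent.H95.LR (rel_any quad_lin sharp_pair sharp_rec bR base_pq base_digit base_bound)
open Pool.Agent.H95.LX (pos pos_finite sign_exp4_loc no_three)

/-- Littlewood's statement for the pair `(α, β)`:
`liminf q ‖qα‖ ‖qβ‖ = 0`. -/
def Littlewood (α β : ℝ) : Prop :=
  ∀ ε : ℝ, 0 < ε → ∀ N : ℕ, ∃ q : ℕ, N ≤ q ∧ 0 < q ∧
    (q : ℝ) * |(q : ℝ) * α - (round ((q : ℝ) * α) : ℝ)|
      * |(q : ℝ) * β - (round ((q : ℝ) * β) : ℝ)| < ε

lemma littlewood_of {α β : ℝ} (h : ∀ ε : ℝ, 0 < ε → ∀ N : ℕ, ∃ q : ℕ, N ≤ q ∧ 0 < q ∧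
    ∃ p r : ℤ, (q : ℝ) * |(q : ℝ) * α - p| * |(q : ℝ) * β - r| < ε) : Littlewood α β := by
  intro ε hε N
  obtain ⟨q, hq, hq0, p, r, h⟩ := h ε hε N
  refine ⟨q, hq, hq0, lt_of_le_of_lt ?_ h⟩
  apply mul_le_mul _ (round_le _ _) (abs_nonneg _) (by positivity)
  exact mul_le_mul_of_nonneg_left (round_le _ _) (Nat.cast_nonneg _)

lemma irrational_of {α β : ℝ} (h : ¬ Littlewood α β) : Irrational α := by
  rw [Irrational]
  rintro ⟨a, rfl⟩
  apply h
  apply littlewood_of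
  intro ε hε N
  refine ⟨(N + 1) * a.den, ?_, Nat.mul_pos (by omega) a.den_pos, (N + 1) * a.num, 0, ?_⟩
  · have := a.den_pos
    nlinarith
  · have h1 : (((N + 1) * a.den : ℕ) : ℝ) * (a : ℝ) - (((N + 1) * a.num : ℤ) : ℝ) = 0 := by
      have h2 : (a : ℝ) * a.den = a.num := by exact_mod_cast Rat.mul_den_eq_num a
      push_cast
      linear_combination ((N : ℝ) + 1) * h2
    rw [h1]
    simpa using hε

lemma bad_of {α β : ℝ} (h : ¬ Littlewood α β) :
    ∃ δ : ℝ, 0 < δ ∧ ∀ q : ℕ, 0 < q → ∀ p : ℤ, δ ≤ (q : ℝ) * |(q : ℝ) * α - p| := by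
  by_cases hb : ∀ ε : ℝ, 0 < ε → ∀ N : ℕ, ∃ q : ℕ, N ≤ q ∧ 0 < q ∧
      (q : ℝ) * |(q : ℝ) * α - (round ((q : ℝ) * α) : ℝ)| < ε
  · exfalso
    apply h
    intro ε hε N
    obtain ⟨q, hq, hq0, h⟩ := hb ε hε N
    refine ⟨q, hq, hq0, ?_⟩
    have h1 := abs_sub_round ((q : ℝ) * β)
    have h2 : 0 ≤ (q : ℝ) * |(q : ℝ) * α - (round ((q : ℝ) * α) : ℝ)| := by positivity
    nlinarith [abs_nonneg ((q : ℝ) * β - (round ((q : ℝ) * β) : ℝ))]
  · push Not at hb
    obtain ⟨ε0, hε0, N0, hN0⟩ := hb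
    set m : ℕ := N0 + 1 with hm
    have hmpos : (0 : ℝ) < m := by positivity
    have hδ : 0 < ε0 / (m : ℝ) ^ 2 := by positivity
    refine ⟨ε0 / (m : ℝ) ^ 2, hδ, ?_⟩
    intro q hq p
    have h1 := hN0 (m * q) (by nlinarith) (Nat.mul_pos (by omega) hq)
    have h2 := round_le (((m * q : ℕ) : ℝ) * α) (m * p)
    have h3 : |((m * q : ℕ) : ℝ) * α - ((m * p : ℤ) : ℝ)| = m * |(q : ℝ) * α - p| := by
      have e : ((m * q : ℕ) : ℝ) * α - ((m * p : ℤ) : ℝ) = m * ((q : ℝ) * α - p) := by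
        push_cast; ring
      rw [e, abs_mul, abs_of_pos hmpos]
    rw [h3] at h2
    rw [div_le_iff₀ (by positivity)]
    have h4 : ((m * q : ℕ) : ℝ) * |((m * q : ℕ) : ℝ) * α -
        (round (((m * q : ℕ) : ℝ) * α) : ℝ)| ≤ ((m * q : ℕ) : ℝ) * (m * |(q : ℝ) * α - p|) :=
      mul_le_mul_of_nonneg_left h2 (Nat.cast_nonneg _)
    have h5 : ((m * q : ℕ) : ℝ) * (m * |(q : ℝ) * α - p|) =
        (q : ℝ) * |(q : ℝ) * α - p| * (m : ℝ) ^ 2 := by push_cast; ring
    linarith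

/-- Bounded digits. -/
lemma bounded_of {α : ℝ} (hα : Irrational α) {δ : ℝ} (hδ : 0 < δ)
    (hbad : ∀ q : ℕ, 0 < q → ∀ p : ℤ, δ ≤ (q : ℝ) * |(q : ℝ) * α - p|)
    {β : ℝ} {R : ℕ → ℤ} {M : ℝ} (hM : ∀ k, |(den α k : ℝ) * β - R k| ≤ M) :
    ∃ B : ℕ, ∀ k, |pq α k| ≤ B ∧ |digit α R k| ≤ B := by
  have hM0 : 0 ≤ M := (abs_nonneg _).trans (hM 0)
  set c : ℝ := 1 + (1 + 1 / δ) / δ with hc
  have hc0 : 0 < c := by positivity
  obtain ⟨B1, hB1⟩ := exists_nat_ge c
  obtain ⟨B2, hB2⟩ := exists_nat_ge (M + c * M + M)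
  refine ⟨B1 + B2 + (pq α 0).natAbs, fun k => ⟨?_, ?_⟩⟩
  · rcases k with _ | k
    · push_cast
      have : (0 : ℤ) ≤ B1 + B2 := by positivity
      linarith
    · have h1 := pq_bound hα hδ hbad k
      have h2 := pq_ge hα k
      rw [abs_of_nonneg (by omega)]
      have h3 : pq α (k + 1) ≤ (B1 : ℤ) := by
        have : (pq α (k + 1) : ℝ) ≤ B1 := h1.trans hB1
        exact_mod_cast this
      push_cast
      have : (0 : ℤ) ≤ |pq α 0| := abs_nonneg _
      omega
  · have h1 := pq_bound hα hδ hbad k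
    have h2 := pq_ge hα k
    have h2' : (0 : ℝ) ≤ pq α (k + 1) := by exact_mod_cast (by omega : 0 ≤ pq α (k + 1))
    have e : (digit α R k : ℝ) =
        -((den α (k + 2) : ℝ) * β - R (k + 2)) +
          pq α (k + 1) * ((den α (k + 1) : ℝ) * β - R (k + 1)) -
          ((den α k : ℝ) * β - R k) := by
      unfold digit
      rw [den_rec]
      push_cast
      ring
    have h3 : |(digit α R k : ℝ)| ≤ M + c * M + M := by
      rw [e]
      refine (abs_sub _ _).trans (add_le_add ((abs_add_le _ _).trans (add_le_add ?_ ?_)) (hM k))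
      · rw [abs_neg]; exact hM _
      · rw [abs_mul, abs_of_nonneg h2']
        exact mul_le_mul h1 (hM _) (abs_nonneg _) hc0.le
    have h4 : |digit α R k| ≤ (B2 : ℤ) := by
      have := h3.trans hB2
      exact_mod_cast this
    push_cast
    have : (0 : ℤ) ≤ |pq α 0| := abs_nonneg _
    omega

/-- The integers `a_j`, `b_j` (`0 ≤ j ≤ L`), not all zero, are a linear relation of the sequence `e`
on the window `n, ..., n + w - 1`: the combination of the translates of `e` (coefficients `a_j`) and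
of the translates of the reflected window (coefficients `b_j`) vanishes there. -/
def IsRelation (e : ℕ → ℤ) (n w L : ℕ) (a b : ℕ → ℤ) : Prop :=
  (∃ j ≤ L, a j ≠ 0 ∨ b j ≠ 0) ∧
  ∀ i < w, ∑ j ∈ Finset.range (L + 1), (a j * e (n + i + j) + b j * e (n + (w - 1 - i) + j)) = 0

/-- The sequence `g` is invariant under the translations and the reflections which are used with a
nonzero coefficient and, if some `b_j ≠ 0`, under the translation by `L`. -/
def IsCompatible (g : ℕ → ℤ) (n w L : ℕ) (a b : ℕ → ℤ) : Prop :=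
  ∀ i < w, (∀ j ≤ L, (a j ≠ 0 → g (n + i + j) = g (n + i)) ∧
    (b j ≠ 0 → g (n + (w - 1 - i) + j) = g (n + i))) ∧
    ((∃ j ≤ L, b j ≠ 0) → g (n + i + L) = g (n + i))

/-- The height `∑ (|a_j| + |b_j|)`. -/
def height (L : ℕ) (a b : ℕ → ℤ) : ℤ := ∑ j ∈ Finset.range (L + 1), (|a j| + |b j|)

/-- A block of length `n` of `d` up to the sign. -/
def block (d : ℕ → ℤ) (n i : ℕ) : Set (Fin n → ℤ) :=
  {(fun j : Fin n => d (i + j)), (fun j : Fin n => -d (i + j))}

/-- The subblocks of length `n`, up to the sign, of the block of length `M` of `d` at `i`. -/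
def subblocks (d : ℕ → ℤ) (n M i : ℕ) : Set (Set (Fin n → ℤ)) :=
  {X | ∃ j, i ≤ j ∧ j + n ≤ i + M ∧ block d n j = X}

/-- The joint coding of an arbitrary pair. -/
theorem general (α β : ℝ) (R : ℕ → ℤ)
    (hR : ∃ M : ℝ, ∀ k, |(den α k : ℝ) * β - R k| ≤ M)
    (hfail : ¬ Littlewood α β) :
    ∃ K : ℕ → ℕ,
      (∀ (n w L : ℕ) (a b : ℕ → ℤ), IsRelation (digit α R) n w L a b →
        IsCompatible (fun k => pq α (k + 1)) n w L a b →
        (∀ s : ℕ, 1 ≤ s → s * w < (2 * s + 1) * L + K s) ∧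
        ∀ μ : ℕ, height L a b ≤ 2 ^ μ → w < 2 * L + K 0 * (μ + 1)) ∧
      (∀ n : ℕ, ((2 * n : ℕ) : ℕ∞) ≤
        (Set.range (signBlock (fun k => pq α (k + 1)) (digit α R) n)).encard + K 0) ∧
      ((∃ a b c : ℤ, a ≠ 0 ∧ (a : ℝ) * α ^ 2 + b * α + c = 0) →
        (∀ (n w L : ℕ) (a : ℕ → ℤ), IsRelation (digit α R) n w L a 0 →
          IsCompatible (fun k => pq α (k + 1)) n w L a 0 →
          ∀ σ : ℤ, (σ = 1 ∨ σ = -1) → (∀ j ≤ L, a (L - j) = σ * a j) →
            (∀ s : ℕ, 1 ≤ s → s * (2 * w) < (s + 1) * L + K s) ∧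
            ∀ μ : ℕ, height L a 0 ≤ 2 ^ μ → 2 * w < L + K 0 * (μ + 1)) ∧
        (∀ n M i : ℕ, 4 * n * M ≤
          ((signBlock (fun k => pq α (k + 1)) (digit α R) n '' pos n M i).ncard + K 0) * M +
            40 * n ^ 2)) := by
  have hR : ∃ M : ℝ, ∀ k, |(den α k : ℝ) * β - R k| ≤ M := hR
  obtain ⟨M, hM⟩ := hR
  have hα := irrational_of hfail
  obtain ⟨δ, hδ, hbad⟩ := bad_of hfail
  obtain ⟨B, hB⟩ := bounded_of hα hδ hbad hM
  have hfail' : ¬ ∀ ε : ℝ, 0 < ε → ∀ N : ℕ, ∃ q : ℕ, N ≤ q ∧ 0 < q ∧ ∃ p r : ℤ,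
      (q : ℝ) * |(q : ℝ) * α - p| * |(q : ℝ) * β - r| < ε := fun h => hfail (littlewood_of h)
  -- no long zero blocks
  have hz : ∃ g : ℕ, ∀ i, ∃ j < g, digit α R (i + j) ≠ 0 := by
    by_contra hcon
    push Not at hcon
    exact hfail' (zero_case hα hδ hbad hM hcon)
  obtain ⟨g, hg⟩ := hz
  -- no long runs
  have hr : ∃ L0 : ℕ, ∀ (n l s : ℕ) (τ : ℤ), (τ = 1 ∨ τ = -1) → 1 ≤ l →
      Run α R τ n l s → s < 2 * l + L0 := by
    by_contra hcon
    push Not at hcon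
    refine hfail' (run_case hα hδ hbad hM fun L => ?_)
    obtain ⟨n, l, s, τ, h1, h2, h3, h4⟩ := hcon L
    exact ⟨n, l, s, τ, h1, h2, h4, h3⟩
  obtain ⟨L0, hL0⟩ := hr
  -- complexity
  have hc : ∃ G : ℕ, ∀ n : ℕ, ((2 * n : ℕ) : ℕ∞) ≤
      (Set.range (signBlock (fun k => pq α (k + 1)) (digit α R) n)).encard + G := by
    by_contra hcon
    push Not at hcon
    obtain ⟨n, l, s, τ, h1, h2, h3, h4⟩ := sign_exp3 (c := fun k => pq α (k + 1))
      (e := digit α R) (B := B) (fun k => (hB (k + 1)).1) (fun k => (hB k).2) hg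
      (fun G => by obtain ⟨n, hn⟩ := hcon G; exact ⟨n, hn.le⟩) L0
    have := hL0 n l s τ h1 h2 h4
    omega
  obtain ⟨G, hG⟩ := hc
  -- relations
  obtain ⟨K2, hK2⟩ := rel_any hα hδ hbad hM (F := B) (fun k => (hB k).2) hfail'
  -- the quadratic case
  have hquad : ∃ K : ℕ → ℕ, (∃ a b c : ℤ, a ≠ 0 ∧ (a : ℝ) * α ^ 2 + b * α + c = 0) →
      ∀ (n w L : ℕ) (a : ℕ → ℤ), (∃ j ≤ L, a j ≠ 0) →
      (∀ i < w, (∀ j ≤ L, a j ≠ 0 → pq α (n + i + j + 1) = pq α (n + i + 1)) ∧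
        ∑ j ∈ Finset.range (L + 1), a j * digit α R (n + i + j) = 0) →
      ∀ σ : ℤ, (σ = 1 ∨ σ = -1) → (∀ j ≤ L, a (L - j) = σ * a j) →
        (∀ s : ℕ, 1 ≤ s → s * (2 * w) < (s + 1) * L + K s) ∧
        ∀ μ : ℕ, ∑ j ∈ Finset.range (L + 1), |a j| ≤ 2 ^ μ → 2 * w < L + K 0 * (μ + 1) := by
    by_cases hq : ∃ a b c : ℤ, a ≠ 0 ∧ (a : ℝ) * α ^ 2 + b * α + c = 0
    · obtain ⟨a, b, c, ha, hq⟩ := hq
      obtain ⟨k0, m0, hm0, hper⟩ := lagrange hα hδ hbad ha hq
      obtain ⟨K, hK⟩ := quad_lin hα hδ hbad hM (F := B) (fun k => (hB k).2) hm0 hper hfail'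
      exact ⟨K, fun _ => hK⟩
    · exact ⟨fun _ => 0, fun h => absurd h hq⟩
  obtain ⟨K4, hK4⟩ := hquad
  have hK' : (∃ a b c : ℤ, a ≠ 0 ∧ (a : ℝ) * α ^ 2 + b * α + c = 0) →
      ∀ (n l s : ℕ) (τ : ℤ), (τ = 1 ∨ τ = -1) → 1 ≤ l →
      Run α R τ n l s → 2 * s < l + K4 0 * 2 := by
    intro hq n l s τ hτ hl hrun
    have habs := runA_abs hl hτ
    refine (hK4 hq n s l (runA l τ) ⟨l, le_rfl, by simp [runA]⟩ (fun i hi => ⟨fun j hj h => ?_,
      ?_⟩) (-τ) (by rcases hτ with h | h <;> rw [h] <;> simp)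
      (fun j hj => runA_rcp hl hτ j hj)).2 1 (by rw [habs]; norm_num)
    · have hr1 := (hrun i hi).1
      by_cases hjl : j = l
      · subst hjl
        rw [hr1, show n + i + j + 1 = n + j + i + 1 by ring]
      · have : j = 0 := by
          by_contra h0
          apply h
          simp [runA, hjl, h0]
        subst this
        rfl
    · have h1 := runA_sum hl τ (fun j => digit α R (n + i + j))
      have h2 := (hrun i hi).2
      rw [h1]
      simp only [Nat.add_zero]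
      rw [show n + i + l = n + l + i by ring, h2]
      ring
  refine ⟨fun s => B + G + K2 s + K2 0 + K4 s + K4 0 + (4 * (K4 0 * 2) + 4 + 4 * g),
    ?_, ?_, ?_⟩
  · intro n w L a b hrl hcp
    obtain ⟨f1, f2⟩ := hK2 n w L a b hrl.1 (fun h i hi => (hcp i hi).2 h)
      (fun i hi => (hcp i hi).1) hrl.2
    refine ⟨fun s hs => (f1 s hs).trans_le (Nat.add_le_add_left ?_ _),
      fun μ hμ => (f2 μ hμ).trans_le (Nat.add_le_add_left (Nat.mul_le_mul_right _ ?_) _)⟩
    · simp only []; omega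
    · simp only []; omega
  · intro n
    exact (hG n).trans (add_le_add le_rfl (by
      exact_mod_cast (by omega : G ≤ B + G + K2 0 + K2 0 + K4 0 + K4 0 +
        (4 * (K4 0 * 2) + 4 + 4 * g))))
  · intro hq
    constructor
    · intro n w L a hrl hcp σ hσ hrcp
      have hne : ∃ j ≤ L, a j ≠ 0 := by
        obtain ⟨j, hj, h | h⟩ := hrl.1
        · exact ⟨j, hj, h⟩
        · exact absurd rfl h
      have h1 : ∀ i < w, (∀ j ≤ L, a j ≠ 0 → pq α (n + i + j + 1) = pq α (n + i + 1)) ∧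
          ∑ j ∈ Finset.range (L + 1), a j * digit α R (n + i + j) = 0 := by
        intro i hi
        refine ⟨fun j hj h => ((hcp i hi).1 j hj).1 h, ?_⟩
        simpa using hrl.2 i hi
      obtain ⟨f1, f2⟩ := hK4 hq n w L a hne h1 σ hσ hrcp
      refine ⟨fun s hs => (f1 s hs).trans_le (Nat.add_le_add_left ?_ _),
        fun μ hμ => (f2 μ ?_).trans_le (Nat.add_le_add_left (Nat.mul_le_mul_right _ ?_) _)⟩
      · simp only []; omega
      · unfold height at hμ
        simpa using hμ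
      · simp only []; omega
    · intro n M i
      have h1 := sign_exp4_loc (c := fun k => pq α (k + 1)) (e := digit α R) hg (K := K4 0 * 2)
        (fun i l s τ hτ hl h => hK' hq i l s τ hτ hl h) n M i
      refine h1.trans (Nat.add_le_add_right (Nat.mul_le_mul_right _ (Nat.add_le_add_left ?_ _)) _)
      simp only []
      omega

/-- Littlewood's statement for `l` and `β` gives it for `r + s l` and `β`, `r`, `s` rational. -/
lemma littlewood_affine {l β : ℝ} (r s : ℚ) (h : Littlewood l β) :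
    Littlewood (r + s * l) β := by
  apply littlewood_of
  intro ε hε N
  set D : ℕ := r.den * s.den with hD
  have hDpos : 0 < D := Nat.mul_pos r.den_pos s.den_pos
  set S : ℤ := r.den * s.num with hS
  set T : ℤ := s.den * r.num with hT
  have hDR : (1 : ℝ) ≤ D := by exact_mod_cast hDpos
  have hDs : (D : ℝ) * s = S := by
    have h2 : (s : ℝ) * s.den = s.num := by exact_mod_cast Rat.mul_den_eq_num s
    rw [hD, hS]
    push_cast
    linear_combination (r.den : ℝ) * h2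
  have hDr : (D : ℝ) * r = T := by
    have h2 : (r : ℝ) * r.den = r.num := by exact_mod_cast Rat.mul_den_eq_num r
    rw [hD, hT]
    push_cast
    linear_combination (s.den : ℝ) * h2
  have hSR : (0 : ℝ) ≤ |(S : ℝ)| := abs_nonneg _
  have hC : (0 : ℝ) < (D : ℝ) ^ 2 * (|(S : ℝ)| + 1) := by positivity
  obtain ⟨q, hqN, hq0, hq⟩ := h (ε / ((D : ℝ) ^ 2 * (|(S : ℝ)| + 1))) (by positivity) N
  rw [lt_div_iff₀ hC] at hq
  set p := round ((q : ℝ) * l) with hp
  set m := round ((q : ℝ) * β) with hm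
  refine ⟨D * q, by nlinarith, Nat.mul_pos hDpos hq0, T * q + S * p, D * m, ?_⟩
  have e1 : ((D * q : ℕ) : ℝ) * (r + s * l) - ((T * q + S * p : ℤ) : ℝ) =
      S * ((q : ℝ) * l - p) := by
    push_cast
    linear_combination (q : ℝ) * hDr + (q : ℝ) * l * hDs
  have e2 : ((D * q : ℕ) : ℝ) * β - ((D * m : ℤ) : ℝ) = D * ((q : ℝ) * β - m) := by
    push_cast; ring
  rw [e1, e2, abs_mul, abs_mul, abs_of_nonneg (by linarith : (0 : ℝ) ≤ D)]
  refine lt_of_le_of_lt ?_ hq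
  push_cast
  have h3 : 0 ≤ (q : ℝ) * |(q : ℝ) * l - p| * |(q : ℝ) * β - m| := by positivity
  have h4 : (D : ℝ) * q * (|(S : ℝ)| * |(q : ℝ) * l - p|) * (D * |(q : ℝ) * β - m|) =
      (q : ℝ) * |(q : ℝ) * l - p| * |(q : ℝ) * β - m| * ((D : ℝ) ^ 2 * |(S : ℝ)|) := by ring
  rw [h4]
  apply mul_le_mul_of_nonneg_left _ h3
  nlinarith [sq_nonneg (D : ℝ)]

/-- The expansions in the base `l`. -/
theorem expansion {l : ℝ} {t : ℤ} {d : ℕ → ℤ} {F : ℤ} (h1 : 1 < l) (ht : l + 1 / l = t)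
    (hd : ∀ k, |d k| ≤ F) (hfail' : ¬ Littlewood l (∑' k, (d k : ℝ) / l ^ k)) :
    ∃ K : ℕ → ℕ, 1 ≤ K 0 ∧
      (∀ n M i : ℕ, 4 * n * M ≤ ((subblocks d n M i).ncard + K 0) * M + 40 * n ^ 2) ∧
      (∀ (n w L : ℕ) (a b : ℕ → ℤ), IsRelation d n w L a b →
        (∀ s : ℕ, 1 ≤ s → s * w < (2 * s + 1) * L + K s) ∧
        ∀ μ : ℕ, height L a b ≤ 2 ^ μ → w < 2 * L + K 0 * (μ + 1)) ∧
      (∀ (n w L : ℕ) (a : ℕ → ℤ), IsRelation d n w L a 0 →
        ∀ σ : ℤ, (σ = 1 ∨ σ = -1) → (∀ j ≤ L, a (L - j) = σ * a j) →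
          (∀ s : ℕ, 1 ≤ s → s * (2 * w) < (s + 1) * L + K s) ∧
          ∀ μ : ℕ, height L a 0 ≤ 2 ^ μ → 2 * w < L + K 0 * (μ + 1)) ∧
      (∀ s n w L : ℕ,
        ((s + 1) * w ≤ 2 * s * (L + 1) → ∃ a b : ℕ → ℤ, IsRelation d n w L a b ∧
          height L a b ≤ (K 0 * (L + 1)) ^ (s + 1)) ∧
        (2 * (s + 1) * w ≤ s * (L + 1) → ∃ a : ℕ → ℤ, IsRelation d n w L a 0 ∧
          (∀ j ≤ L, a (L - j) = a j) ∧ height L a 0 ≤ (K 0 * (L + 1)) ^ (s + 1))) := by
  obtain ⟨K, hrel, _, hq⟩ := general l _ (bR l d) (base_bound h1 ht hd) hfail'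
  have hdig : ∀ k, digit l (bR l d) k = d (k + 1) := base_digit h1 ht d
  have hcomp : ∀ (n w L : ℕ) (a b : ℕ → ℤ), IsCompatible (fun k => pq l (k + 1)) n w L a b := by
    intro n w L a b i _
    refine ⟨fun j _ => ⟨fun _ => ?_, fun _ => ?_⟩, fun _ => ?_⟩ <;>
      simp only [base_pq h1 ht]
  obtain ⟨hrec, hblk⟩ := hq ⟨1, -t, 1, one_ne_zero, by
    have h0 : l ≠ 0 := by linarith
    push_cast
    rw [← ht]
    field_simp
    ring⟩
  obtain ⟨B, hB⟩ : ∃ B : ℕ, F ≤ B := ⟨F.toNat, Int.self_le_toNat F⟩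
  have hdB : ∀ k, |d k| ≤ (B : ℤ) := fun k => (hd k).trans hB
  refine ⟨fun s => K s + K 0 + 2 * s + 4 + 2 * (B + 1), by simp only []; omega, ?_, ?_, ?_, ?_⟩
  · -- blocks
    intro n M i
    rcases le_or_gt M (10 * n) with hM | hM
    · have h2 : 4 * n * M ≤ 4 * n * (10 * n) := Nat.mul_le_mul_left _ hM
      nlinarith
    obtain ⟨M', i', hM1, hM2, hpos⟩ : ∃ M' i' : ℕ, M ≤ M' + 1 ∧ M' ≤ M ∧
        ∀ j ∈ pos n M' i', j + 1 ∈ pos n M i := by
      rcases Nat.eq_zero_or_pos i with hi | hi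
      · refine ⟨M - 1, 0, by omega, by omega, fun j hj => ?_⟩
        have := hj.2
        exact ⟨by omega, by omega⟩
      · refine ⟨M, i - 1, by omega, le_rfl, fun j hj => ?_⟩
        have h2 := hj.1
        have h3 := hj.2
        exact ⟨by omega, by omega⟩
    have hTfin : (subblocks d n M i).Finite := by
      refine ((pos_finite n M i).image (block d n)).subset ?_
      rintro X ⟨j, hj1, hj2, rfl⟩
      exact ⟨j, ⟨hj1, hj2⟩, rfl⟩
    have hsub : signBlock (fun k => pq l (k + 1)) (digit l (bR l d)) n '' pos n M' i' ⊆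
        (fun X : Set (Fin n → ℤ) => (fun (f : Fin n → ℤ) (j : Fin n) => (t, f j)) '' X) ''
          subblocks d n M i := by
      rintro _ ⟨j, hj, rfl⟩
      refine ⟨block d n (j + 1), ⟨j + 1, (hpos j hj).1, (hpos j hj).2, rfl⟩, ?_⟩
      unfold block signBlock
      simp only []
      rw [Set.image_pair]
      simp only [base_pq h1 ht, hdig]
      congr 1
      · funext k
        rw [show j + 1 + (k : ℕ) = j + k + 1 by ring]
      · congr 1
        funext k
        rw [show j + 1 + (k : ℕ) = j + k + 1 by ring]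
    have hcard := (Set.ncard_le_ncard hsub (hTfin.image _)).trans (Set.ncard_image_le hTfin)
    have h2 := hblk n M' i'
    set P := (signBlock (fun k => pq l (k + 1)) (digit l (bR l d)) n '' pos n M' i').ncard
    set T := (subblocks d n M i).ncard
    have h3 : (P + K 0) * M' ≤ (T + K 0) * M := Nat.mul_le_mul (by omega) hM2
    have h4 : 4 * n * M ≤ 4 * n * M' + 4 * n := by
      calc 4 * n * M ≤ 4 * n * (M' + 1) := Nat.mul_le_mul_left _ hM1
        _ = _ := by ring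
    have h5 : (T + K 0) * M + M ≤ (T + (K 0 + K 0 + 2 * 0 + 4 + 2 * (B + 1))) * M := by
      calc (T + K 0) * M + M = (T + K 0 + 1) * M := by ring
        _ ≤ _ := Nat.mul_le_mul_right _ (by omega)
    simp only []
    omega
  · -- relations
    intro n w L a b hrl
    have hmain : ∃ w' : ℕ, w ≤ w' + 2 ∧ ∃ n' : ℕ, w' = 0 ∨
        IsRelation (digit l (bR l d)) n' w' L a b := by
      rcases Nat.eq_zero_or_pos n with hn | hn
      · subst hn
        rcases Nat.lt_or_ge w 3 with hw | hw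
        · exact ⟨0, by omega, 0, Or.inl rfl⟩
        · refine ⟨w - 2, by omega, 0, Or.inr ⟨hrl.1, fun i hi => ?_⟩⟩
          have h3 := hrl.2 (i + 1) (by omega)
          rw [← h3]
          apply Finset.sum_congr rfl
          intro j _
          rw [hdig, hdig, show 0 + i + j + 1 = 0 + (i + 1) + j by ring,
            show 0 + (w - 2 - 1 - i) + j + 1 = 0 + (w - 1 - (i + 1)) + j by omega]
      · refine ⟨w, by omega, n - 1, Or.inr ⟨hrl.1, fun i hi => ?_⟩⟩
        have h3 := hrl.2 i hi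
        rw [← h3]
        apply Finset.sum_congr rfl
        intro j _
        rw [hdig, hdig, show n - 1 + i + j + 1 = n + i + j by omega,
          show n - 1 + (w - 1 - i) + j + 1 = n + (w - 1 - i) + j by omega]
    obtain ⟨w', hw', n', hcase⟩ := hmain
    rcases hcase with h0 | hrl'
    · subst h0
      refine ⟨fun s hs => ?_, fun μ _ => ?_⟩
      · have h3 : s * w ≤ s * 2 := Nat.mul_le_mul_left _ (by omega)
        simp only []
        omega
      · have h3 : K 0 + K 0 + 2 * 0 + 4 + 2 * (B + 1) ≤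
            (K 0 + K 0 + 2 * 0 + 4 + 2 * (B + 1)) * (μ + 1) :=
          Nat.le_mul_of_pos_right _ (by omega)
        simp only []
        omega
    · obtain ⟨f1, f2⟩ := hrel n' w' L a b hrl' (hcomp _ _ _ _ _)
      refine ⟨fun s hs => ?_, fun μ hμ => ?_⟩
      · have h3 := f1 s hs
        have h4 : s * w ≤ s * w' + 2 * s := by
          calc s * w ≤ s * (w' + 2) := Nat.mul_le_mul_left _ hw'
            _ = _ := by ring
        simp only []
        omega
      · have h3 := f2 μ hμ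
        have h4 : (K 0 + K 0 + 2 * 0 + 4 + 2 * (B + 1)) * (μ + 1) =
          K 0 * (μ + 1) + (K 0 + 4 + 2 * (B + 1)) * (μ + 1) := by ring
        have h5 : K 0 + 4 + 2 * (B + 1) ≤ (K 0 + 4 + 2 * (B + 1)) * (μ + 1) :=
          Nat.le_mul_of_pos_right _ (by omega)
        simp only []
        omega
  · -- reciprocal relations
    intro n w L a hrl σ hσ hrcp
    have hmain : ∃ w' : ℕ, w ≤ w' + 1 ∧ ∃ n' : ℕ, w' = 0 ∨
        IsRelation (digit l (bR l d)) n' w' L a 0 := by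
      rcases Nat.eq_zero_or_pos n with hn | hn
      · subst hn
        rcases Nat.lt_or_ge w 2 with hw | hw
        · exact ⟨0, by omega, 0, Or.inl rfl⟩
        · refine ⟨w - 1, by omega, 0, Or.inr ⟨hrl.1, fun i hi => ?_⟩⟩
          have h3 := hrl.2 (i + 1) (by omega)
          simp only [Pi.zero_apply, zero_mul, add_zero] at h3 ⊢
          rw [← h3]
          apply Finset.sum_congr rfl
          intro j _
          rw [hdig, show 0 + i + j + 1 = 0 + (i + 1) + j by ring]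
      · refine ⟨w, by omega, n - 1, Or.inr ⟨hrl.1, fun i hi => ?_⟩⟩
        have h3 := hrl.2 i hi
        simp only [Pi.zero_apply, zero_mul, add_zero] at h3 ⊢
        rw [← h3]
        apply Finset.sum_congr rfl
        intro j _
        rw [hdig, show n - 1 + i + j + 1 = n + i + j by omega]
    obtain ⟨w', hw', n', hcase⟩ := hmain
    rcases hcase with h0 | hrl'
    · subst h0
      refine ⟨fun s hs => ?_, fun μ _ => ?_⟩
      · have h3 : s * (2 * w) ≤ s * 2 := Nat.mul_le_mul_left _ (by omega)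
        simp only []
        omega
      · have h3 : K 0 + K 0 + 2 * 0 + 4 + 2 * (B + 1) ≤
            (K 0 + K 0 + 2 * 0 + 4 + 2 * (B + 1)) * (μ + 1) :=
          Nat.le_mul_of_pos_right _ (by omega)
        simp only []
        omega
    · obtain ⟨f1, f2⟩ := hrec n' w' L a hrl' (hcomp _ _ _ _ _) σ hσ hrcp
      refine ⟨fun s hs => ?_, fun μ hμ => ?_⟩
      · have h3 := f1 s hs
        have h4 : s * (2 * w) ≤ s * (2 * w') + 2 * s := by
          calc s * (2 * w) ≤ s * (2 * w' + 2) := Nat.mul_le_mul_left _ (by omega)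
            _ = _ := by ring
        simp only []
        omega
      · have h3 := f2 μ hμ
        have h4 : (K 0 + K 0 + 2 * 0 + 4 + 2 * (B + 1)) * (μ + 1) =
          K 0 * (μ + 1) + (K 0 + 4 + 2 * (B + 1)) * (μ + 1) := by ring
        have h5 : K 0 + 4 + 2 * (B + 1) ≤ (K 0 + 4 + 2 * (B + 1)) * (μ + 1) :=
          Nat.le_mul_of_pos_right _ (by omega)
        simp only []
        omega
  · -- sharpness
    intro s n w L
    have hheight : ∀ X : ℤ, X ≤ (((2 * (B + 1)) * (L + 1) : ℕ) : ℤ) ^ (s + 1) →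
        X ≤ ((K 0 + K 0 + 2 * 0 + 4 + 2 * (B + 1) : ℕ) * ((L : ℤ) + 1)) ^ (s + 1) := by
      intro X hX
      refine hX.trans ?_
      have h3 : (2 * (B + 1)) * (L + 1) ≤ (K 0 + K 0 + 2 * 0 + 4 + 2 * (B + 1)) * (L + 1) :=
        Nat.mul_le_mul_right _ (by omega)
      have h4 := Nat.pow_le_pow_left h3 (s + 1)
      exact_mod_cast h4
    constructor
    · intro hw
      obtain ⟨a, b, g1, g2, g3⟩ := sharp_pair (F := B) hdB (s := s + 1)
        (by omega) n w L (by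
          rw [Nat.add_sub_cancel]
          have : s * (2 * (L + 1)) = 2 * s * (L + 1) := by ring
          omega)
      exact ⟨a, b, ⟨g1, g2⟩, hheight _ g3⟩
    · intro hw
      obtain ⟨a, g1, g0, g2, g3⟩ := sharp_rec (F := B) hdB (s := s + 1)
        (by omega) n w L (by
          rw [Nat.add_sub_cancel]
          have : (s + 1) * (2 * w) = 2 * (s + 1) * w := by ring
          omega)
      refine ⟨a, ⟨?_, fun i hi => ?_⟩, g0, hheight _ ?_⟩
      · obtain ⟨j, hj, h⟩ := g1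
        exact ⟨j, hj, Or.inl h⟩
      · simpa using g2 i hi
      · unfold height
        simpa using g3

/-- **Structure of the counterexamples to Littlewood's conjecture.** Let `(α, β)` be a
counterexample. (A) The expansions of `β` in the base of a quadratic unit `l` of norm `1`, if
`α ∈ ℚ(l)`; (B) the joint coding of `α` and `β`, for an arbitrary `α`. -/
theorem result (α β : ℝ) (hfail : ¬ Littlewood α β) :
    (∀ (l : ℝ) (t : ℤ) (r s : ℚ) (d : ℕ → ℤ) (F : ℤ), 1 < l → l + 1 / l = t → α = r + s * l →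
      (∀ k, |d k| ≤ F) → β = ∑' k, (d k : ℝ) / l ^ k →
      ∃ K : ℕ → ℕ,
        (∀ n M i : ℕ, 4 * n * M ≤ ((subblocks d n M i).ncard + K 0) * M + 40 * n ^ 2) ∧
        (∀ (W : Fin 3 → ℕ → ℤ) (w : Fin 3 → ℕ) (c : ℕ → Fin 3) (p : ℕ → ℕ), (∀ a, K 0 ≤ w a) →
          ¬ ∀ j < 13, p (j + 1) = p j + w (c j) ∧ ∀ k < w (c j), d (p j + k) = W (c j) k) ∧
        (∀ (n w L : ℕ) (a b : ℕ → ℤ), IsRelation d n w L a b →
          (∀ s : ℕ, 1 ≤ s → s * w < (2 * s + 1) * L + K s) ∧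
          ∀ μ : ℕ, height L a b ≤ 2 ^ μ → w < 2 * L + K 0 * (μ + 1)) ∧
        (∀ (n w L : ℕ) (a : ℕ → ℤ), IsRelation d n w L a 0 →
          ∀ σ : ℤ, (σ = 1 ∨ σ = -1) → (∀ j ≤ L, a (L - j) = σ * a j) →
            (∀ s : ℕ, 1 ≤ s → s * (2 * w) < (s + 1) * L + K s) ∧
            ∀ μ : ℕ, height L a 0 ≤ 2 ^ μ → 2 * w < L + K 0 * (μ + 1)) ∧
        (∀ s n w L : ℕ,
          ((s + 1) * w ≤ 2 * s * (L + 1) → ∃ a b : ℕ → ℤ, IsRelation d n w L a b ∧
            height L a b ≤ (K 0 * (L + 1)) ^ (s + 1)) ∧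
          (2 * (s + 1) * w ≤ s * (L + 1) → ∃ a : ℕ → ℤ, IsRelation d n w L a 0 ∧
            (∀ j ≤ L, a (L - j) = a j) ∧ height L a 0 ≤ (K 0 * (L + 1)) ^ (s + 1)))) ∧
    (∀ R : ℕ → ℤ, (∃ M : ℝ, ∀ k, |(den α k : ℝ) * β - R k| ≤ M) →
      ∃ K : ℕ → ℕ,
        (∀ (n w L : ℕ) (a b : ℕ → ℤ), IsRelation (digit α R) n w L a b →
          IsCompatible (fun k => pq α (k + 1)) n w L a b →
          (∀ s : ℕ, 1 ≤ s → s * w < (2 * s + 1) * L + K s) ∧
          ∀ μ : ℕ, height L a b ≤ 2 ^ μ → w < 2 * L + K 0 * (μ + 1)) ∧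
        (∀ n : ℕ, ((2 * n : ℕ) : ℕ∞) ≤
          (Set.range (signBlock (fun k => pq α (k + 1)) (digit α R) n)).encard + K 0)) := by
  refine ⟨fun l t r s d F h1 ht hα hd hβ => ?_, fun R hR => ?_⟩
  · subst hα hβ
    obtain ⟨K, hK0, g1, g2, g3, g4⟩ := expansion h1 ht hd
      (fun h => hfail (littlewood_affine r s h))
    have hKK : K 0 ≤ 4 * K 0 + 4 := by omega
    refine ⟨fun s => 4 * K s + 4, ?_, ?_, ?_, ?_, ?_⟩
    · intro n M i
      refine (g1 n M i).trans ?_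
      exact Nat.add_le_add_right (Nat.mul_le_mul_right _ (Nat.add_le_add_left hKK _)) _
    · intro W w c p hw
      refine no_three (K := 2 * K 0) (by omega) ?_ (fun a => by have : 4 * K 0 + 4 ≤ w a := hw a; omega)
      intro i l' s' hl hrun
      have habs := runA_abs (l := l') (τ := 1) hl (Or.inl rfl)
      have h2 := (g3 i s' l' (runA l' 1) ⟨⟨l', le_rfl, Or.inl (by simp [runA])⟩, fun u hu => ?_⟩
        (-1) (Or.inr rfl) (fun j hj => runA_rcp hl (Or.inl rfl) j hj)).2 1 (by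
          unfold height
          simpa using habs.le)
      · omega
      · have h3 := runA_sum hl 1 (fun j => d (i + u + j))
        simp only [Pi.zero_apply, zero_mul, add_zero] at h3 ⊢
        rw [h3, show i + u + l' = i + l' + u by ring, hrun u hu]
        ring
    · intro n w L a b h
      obtain ⟨f1, f2⟩ := g2 n w L a b h
      exact ⟨fun s hs => (f1 s hs).trans_le (Nat.add_le_add_left
          (show K s ≤ 4 * K s + 4 by omega) _),
        fun μ hμ => (f2 μ hμ).trans_le (Nat.add_le_add_left (Nat.mul_le_mul_right _ hKK) _)⟩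
    · intro n w L a h σ hσ hrcp
      obtain ⟨f1, f2⟩ := g3 n w L a h σ hσ hrcp
      exact ⟨fun s hs => (f1 s hs).trans_le (Nat.add_le_add_left
          (show K s ≤ 4 * K s + 4 by omega) _),
        fun μ hμ => (f2 μ hμ).trans_le (Nat.add_le_add_left (Nat.mul_le_mul_right _ hKK) _)⟩
    · intro s n w L
      have hheight : ∀ X : ℤ, X ≤ (K 0 * ((L : ℤ) + 1)) ^ (s + 1) →
          X ≤ (((4 * K 0 + 4 : ℕ) : ℤ) * ((L : ℤ) + 1)) ^ (s + 1) := by
        intro X hX
        refine hX.trans ?_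
        have h4 := Nat.pow_le_pow_left (Nat.mul_le_mul_right (L + 1) hKK) (s + 1)
        exact_mod_cast h4
      refine ⟨fun hw => ?_, fun hw => ?_⟩
      · obtain ⟨a, b, h2, h3⟩ := (g4 s n w L).1 hw
        exact ⟨a, b, h2, hheight _ h3⟩
      · obtain ⟨a, h2, h3, h4⟩ := (g4 s n w L).2 hw
        exact ⟨a, h2, h3, hheight _ h4⟩
  · obtain ⟨K, g1, g2, _⟩ := general α β R hR hfail
    exact ⟨K, g1, g2⟩

end Pool.Agent.Results.MP_0ea415_nt.CounterexampleStructure
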