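import Mathlib
import Pool.Agent.H1.DC.MainG2
import Pool.Agent.H54.TM.MainS2
import Pool.Agent.H54.TM.CaD
import Pool.Agent.H2.MC.ThmE
import Pool.Agent.H1.DP.Main5

set_option autoImplicit false

/-!
# Littlewood's conjecture for all pairs of low joint complexity, both expansions read forward

`pq x` is the sequence of partial quotients of `x` of index 1, 2, ...; `win b i n` is the word `b_i ... b_{i+n-1}`; `OccD b a n` is
the set of the words of length `n` which occur in `b` or in `a` (both read in the usual direction); `NotQuad x`: no nontrivial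
integer polynomial of degree at most two vanishes at `x`; `PowerLittlewood c x y`: for all `ε > 0`, `N` there is an integer
`q ≥ N`, `q > 0`, with `q^(1+c) ‖qx‖ ‖qy‖ < ε`; `qv l x = l 0 * x^2 + l 1 * x + l 2`; `nd x` is the distance of `x` to the nearest
integer; `shift` is the shift on sequences.

Part (1): two numbers of low joint complexity, and all their images under rational Moebius maps. Part (2): one number of low
complexity, all pairs of quotients of integer quadratic polynomials with one denominator, for example `(α, α²)` and `(α, 1/α)`.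
Part (3): almost all pairs, and almost all numbers, of an ergodic system of low complexity. Part (4): two numbers coded by two
blocks (in both read forward) over sequences `s`, `t` of two letters whose words occur, reversed, infinitely often in `s`. Part (5):
two numbers all of whose late words recur in the first one, if at most `3n/2` words of length `n` recur for all large `n`.
`RecB b n`: the words of length `n` which occur infinitely often in `b`; `lwin s i n`: the word `s_i ... s_{i+n-1}` over any alphabet;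
`Reads b i f s`: from the index `i` on the sequence `b` is `f (s 0) f (s 1) ...`.

Outline. At infinitely many scales the recurrent words of length `m` have one bispecial word `R` with two return words `w₁`, `w₂`
(folder `Pool/Agent/H1/DC`), `|w₁| + |w₂| = m + D`. For words `u`, `v` of length `D` one has `w₁w₂ = R u`, `w₂w₁ = R v`, and with
`Z = adj(M(u) - M(v)) J⁻¹` (twisted mirror, folder `Pool/Agent/H54/TM`) `M(R) Zᵗ = Z M(R)ᵗ`, the same for `w₁R`, `w₂R`, `w₁w₂ᵏw₁R`, and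
`det Z ≠ 0`: these words behave like palindromes up to the twist `Z`, although no word need be a palindrome. In (4) and (5) (folder
`Pool/Agent/H1/DP`) ONE twist `adj(M₀M₁ - M₁M₀) J` serves all words which are palindromes as words over the two blocks; in (5) the
language over the two return words of a bispecial scale is closed under reversal (folder `Pool/Agent/H54/RV`).
-/

namespace Pool.Agent.Results.MP_0ea415_nt.DirectComplexity

open Filter MeasureTheory Pool.Agent.H2.MC Pool.Agent.H2.Sturm Pool.Agent.H1.DC Pool.Agent.H54.TM Pool.Agent.H17.EP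

lemma exists_rat_c {c κ : ℝ} (hκ : κ < 2) (hc : (1 + c) * κ < 2) : ∃ r : ℚ, c ≤ r ∧ 0 ≤ (r : ℝ) ∧ (1 + (r : ℝ)) * κ < 2 := by
  rcases le_or_gt κ 0 with h | h
  · obtain ⟨r, hr⟩ := exists_rat_gt (max c 0)
    have h1 : c < r := (le_max_left _ _).trans_lt hr
    have h2 : (0 : ℝ) < r := (le_max_right _ _).trans_lt hr
    refine ⟨r, h1.le, h2.le, ?_⟩
    have h3 : (1 + (r : ℝ)) * κ ≤ 0 := mul_nonpos_of_nonneg_of_nonpos (by linarith) h
    linarith
  · have h1 : max c 0 < 2 / κ - 1 := by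
      refine max_lt ?_ ?_
      · have : 1 + c < 2 / κ := by rw [lt_div_iff₀ h]; exact hc
        linarith
      · have : 1 < 2 / κ := by rw [lt_div_iff₀ h]; linarith
        linarith
    obtain ⟨r, hr1, hr2⟩ := exists_rat_btwn h1
    have h2 : c < r := (le_max_left _ _).trans_lt hr1
    have h3 : (0 : ℝ) < r := (le_max_right _ _).trans_lt hr1
    refine ⟨r, h2.le, h3.le, ?_⟩
    have h4 : 1 + (r : ℝ) < 2 / κ := by linarith
    rwa [lt_div_iff₀ h] at h4

theorem result :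
    -- (1) two numbers
    (∀ (α β c κ : ℝ), NotQuad α → NotQuad β → 0 ≤ c → c < 1 → κ * (7 + 2 * c - c ^ 2) < 8 →
      (∃ᶠ n : ℕ in atTop, (OccD (pq α) (pq β) n).Finite ∧ ((OccD (pq α) (pq β) n).ncard : ℝ) ≤ κ * n) →
      ∀ g h : Matrix (Fin 2) (Fin 2) ℤ, g.det ≠ 0 → h.det ≠ 0 →
        PowerLittlewood c (((g 0 0 : ℝ) * α + g 0 1) / ((g 1 0 : ℝ) * α + g 1 1))
          (((h 0 0 : ℝ) * β + h 0 1) / ((h 1 0 : ℝ) * β + h 1 1))) ∧
    -- (2) one number
    (∀ (α c κ : ℝ), NotQuad α → 0 ≤ c → 2 * (1 + c) * κ < 3 + c →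
      (∃ᶠ n : ℕ in atTop, (OccD (pq α) (pq α) n).Finite ∧ ((OccD (pq α) (pq α) n).ncard : ℝ) ≤ κ * n) →
      ∀ D A B : Fin 3 → ℤ, D ≠ 0 → ∀ ε : ℝ, 0 < ε → ∀ N : ℕ, ∃ q : ℕ, N ≤ q ∧ 0 < q ∧
        (q : ℝ) ^ (1 + c) * (max (nd (q * (qv A α / qv D α))) (nd (q * (qv B α / qv D α)))) ^ 2 < ε) ∧
    -- (3) almost all pairs and almost all numbers of an ergodic system
    (∀ (μ : Measure (ℕ → ℕ)) (_ : IsProbabilityMeasure μ), Ergodic shift μ → (∀ x, μ {x} = 0) → ∀ M : ℕ,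
      (∀ᵐ x ∂μ, ∀ n, 0 < x n ∧ x n ≤ M) → ∀ κ < 2,
      (∃ᶠ n : ℕ in atTop, (({w : List ℕ | w.length = n ∧ μ {x | win x 0 n = w} ≠ 0}).ncard : ℝ) ≤ κ * n) →
      (∀ᵐ p ∂(μ.prod μ), ∀ α β : ℝ, pq α = p.1 → pq β = p.2 →
        ∀ g h : Matrix (Fin 2) (Fin 2) ℤ, g.det ≠ 0 → h.det ≠ 0 → ∀ c : ℝ, (1 + c) * κ < 2 →
          PowerLittlewood c (((g 0 0 : ℝ) * α + g 0 1) / ((g 1 0 : ℝ) * α + g 1 1))
            (((h 0 0 : ℝ) * β + h 0 1) / ((h 1 0 : ℝ) * β + h 1 1))) ∧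
      ∀ᵐ x ∂μ, ∀ α : ℝ, pq α = x → ∀ D A B : Fin 3 → ℤ, D ≠ 0 → ∀ c : ℝ, (1 + c) * κ < 2 → ∀ ε : ℝ, 0 < ε → ∀ N : ℕ,
        ∃ q : ℕ, N ≤ q ∧ 0 < q ∧
          (q : ℝ) ^ (1 + c) * (max (nd (q * (qv A α / qv D α))) (nd (q * (qv B α / qv D α)))) ^ 2 < ε) ∧
    -- (4) two numbers coded by two blocks
    (∀ (α β c κ : ℝ), NotQuad α → NotQuad β → 0 ≤ c → c < 1 → (1 + c) * κ < 2 →
      (∃ᶠ n : ℕ in atTop, ((RecB (pq α) n).ncard : ℝ) ≤ κ * n) →
      ∀ (f : Bool → List ℕ) (s t : ℕ → Bool) (i j : ℕ), (∀ a, f a ≠ [] ∧ ∀ e ∈ f a, 0 < e) →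
        (∀ n k, (∃ᶠ p in atTop, lwin s p n = (lwin s k n).reverse) ∧ ∃ᶠ p in atTop, lwin s p n = (lwin t k n).reverse) →
        Reads (pq α) i f s → Reads (pq β) j f t →
      ∀ g h : Matrix (Fin 2) (Fin 2) ℤ, g.det ≠ 0 → h.det ≠ 0 →
        PowerLittlewood c (((g 0 0 : ℝ) * α + g 0 1) / ((g 1 0 : ℝ) * α + g 1 1))
          (((h 0 0 : ℝ) * β + h 0 1) / ((h 1 0 : ℝ) * β + h 1 1))) ∧
    -- (5) two numbers, recurrent words
    (∀ (α β c κ : ℝ), NotQuad α → NotQuad β → 0 ≤ c → c < 1 → (1 + c) * κ < 2 →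
      (∃ᶠ n : ℕ in atTop, ((RecB (pq α) n).ncard : ℝ) ≤ κ * n) →
      (∃ N : ℕ, ∀ i n, N ≤ i → win (pq α) i n ∈ RecB (pq α) n ∧ win (pq β) i n ∈ RecB (pq α) n) →
      (∀ᶠ n : ℕ in atTop, (RecB (pq α) n).Finite ∧ ((RecB (pq α) n).ncard : ℝ) ≤ 3 / 2 * n) →
      ∀ g h : Matrix (Fin 2) (Fin 2) ℤ, g.det ≠ 0 → h.det ≠ 0 →
        PowerLittlewood c (((g 0 0 : ℝ) * α + g 0 1) / ((g 1 0 : ℝ) * α + g 1 1))
          (((h 0 0 : ℝ) * β + h 0 1) / ((h 1 0 : ℝ) * β + h 1 1))) := by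
  refine ⟨?_, ?_, ?_, ?_, ?_⟩
  · intro α β c κ hα hβ hc hc1 hκ hf g h hg hh
    exact mainG2 hα hβ hg hh hc hc1 hκ hf
  · intro α c κ hα hc hκ hf D A B hD ε hε N
    exact mainS2 hα hc hκ hf hD A B hε N
  · intro μ hμ1 hμ hna M hM κ hκ hf
    have := hμ1
    constructor
    · have h1 : ∀ᵐ p ∂(μ.prod μ), ∀ r : ℚ, 0 ≤ (r : ℝ) → (1 + (r : ℝ)) * κ < 2 → ∀ α β : ℝ, pq α = p.1 → pq β = p.2 →
          ∀ g h : Matrix (Fin 2) (Fin 2) ℤ, g.det ≠ 0 → h.det ≠ 0 → PowerLittlewood r (mob g α) (mob h β) := by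
        rw [ae_all_iff]
        intro r
        by_cases hr : 0 ≤ (r : ℝ) ∧ (1 + (r : ℝ)) * κ < 2
        · filter_upwards [ae_pairs hμ hna hM hr.1 hr.2 hf] with p hp _ _
          exact hp
        · exact Filter.Eventually.of_forall fun p a1 a2 => absurd ⟨a1, a2⟩ hr
      filter_upwards [h1] with p hp α β hα hβ g h hg hh c hc
      obtain ⟨r, hr1, hr2, hr3⟩ := exists_rat_c hκ hc
      exact PowerLittlewood.mono (hp r hr2 hr3 α β hα hβ g h hg hh) hr1
    · have h1 : ∀ᵐ x ∂μ, ∀ r : ℚ, 0 ≤ (r : ℝ) → (1 + (r : ℝ)) * κ < 2 → ∀ α : ℝ, pq α = x →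
          ∀ D A B : Fin 3 → ℤ, D ≠ 0 → ∀ ε : ℝ, 0 < ε → ∀ N : ℕ, ∃ q : ℕ, N ≤ q ∧ 0 < q ∧
            (q : ℝ) ^ (1 + (r : ℝ)) * (max (nd (q * (qv A α / qv D α))) (nd (q * (qv B α / qv D α)))) ^ 2 < ε := by
        rw [ae_all_iff]
        intro r
        by_cases hr : 0 ≤ (r : ℝ) ∧ (1 + (r : ℝ)) * κ < 2
        · filter_upwards [ae_one hμ hna hM hr.1 hr.2 hf] with x hx _ _
          exact hx
        · exact Filter.Eventually.of_forall fun p a1 a2 => absurd ⟨a1, a2⟩ hr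
      filter_upwards [h1] with x hx α hα D A B hD c hc ε hε N
      obtain ⟨r, hr1, hr2, hr3⟩ := exists_rat_c hκ hc
      obtain ⟨q, hq1, hq2, hq3⟩ := hx r hr2 hr3 α hα D A B hD ε hε N
      refine ⟨q, hq1, hq2, lt_of_le_of_lt ?_ hq3⟩
      have h2 : (1 : ℝ) ≤ q := by exact_mod_cast hq2
      have h3 : (q : ℝ) ^ (1 + c) ≤ (q : ℝ) ^ (1 + (r : ℝ)) := Real.rpow_le_rpow_of_exponent_le h2 (by linarith)
      exact mul_le_mul_of_nonneg_right h3 (sq_nonneg _)
  · intro α β c κ hα hβ hc hc1 hκ hf f s t i j hff H hs ht g h hg hh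
    have hκ' : κ < 2 / (1 + c) := by
      rw [lt_div_iff₀ (by linarith)]
      linarith
    exact Pool.Agent.H1.DP.main4 (fun a => (hff a).1) (fun a => (hff a).2) H hα hβ hs ht hc hc1 hκ' hf hg hh
  · intro α β c κ hα hβ hc hc1 hκ hf hN h3 g h hg hh
    have hκ' : κ < 2 / (1 + c) := by
      rw [lt_div_iff₀ (by linarith)]
      linarith
    obtain ⟨N, hN⟩ := hN
    exact Pool.Agent.H1.DP.main5 hα hβ (fun i n hi => (hN i n hi).1) (fun i n hi => (hN i n hi).2) h3 hc hc1 hκ' hf hg hh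

end Pool.Agent.Results.MP_0ea415_nt.DirectComplexity
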