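import Mathlib
import Pool.Agent.H2.MC.ThmA
import Pool.Agent.H2.MC.ThmB
import Pool.Agent.H17.EP.Main

set_option autoImplicit false

/-!
# Littlewood's conjecture for pairs with low mirrored complexity, for all pairs from an episturmian subshift, and for
almost all pairs in zero entropy systems

Definitions (files `Pool/Agent/H2/MC/Defs.lean`, `Gen.lean`, `Shift.lean` and `Pool/Agent/H17/EP/Defs.lean`,
`WinL.lean`, `Crit.lean`): `pq x` is the sequence of partial quotients of `x` of index 1, 2, ...; `win b i n` is the word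
`b_i ... b_{i+n-1}` and `mir a j n` is the word `a_{j+n-1} ... a_j` (reversed); `Occ b a n` (`Rec b a n`) is the set of
words of length `n` which occur (infinitely often) in `b` or, reversed, in `a`; `NotQuad x`: no nontrivial integer
polynomial of degree at most two vanishes at `x`; `Fac s u`: the word `u` occurs in `s`; `Epi s`: `s` is episturmian;
`Reads b i f x`: from the index `i` on, the sequence `b` is the product `f (x 0) f (x 1) f (x 2) ...`;
`PowerLittlewood c α β`: for all `ε > 0`, `N` there is `q ≥ N`, `q > 0`, with `q^(1+c) ‖qα‖ ‖qβ‖ < ε`.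
-/

namespace Pool.Agent.Results.MP_0ea415_nt.MirrorComplexity

open Filter MeasureTheory Pool.Agent.H2.MC

theorem result :
    -- (A) all pairs of low mirrored complexity
    (∀ (α β c κ : ℝ), NotQuad α → NotQuad β → 0 ≤ c → c < 1 → κ < 2 / (1 + c) →
      (∃ᶠ n : ℕ in atTop, (Occ (pq α) (pq β) n).Finite ∧
        ((Rec (pq α) (pq β) n).ncard : ℝ) +
          2 / (1 - c) * (((Occ (pq α) (pq β) n).ncard : ℝ) - (Rec (pq α) (pq β) n).ncard) ≤ κ * n) →
      PowerLittlewood c α β) ∧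
    -- (B) one sequence given, almost every partner
    (∀ (ν : Measure (ℕ → ℕ)) (_ : IsProbabilityMeasure ν), Ergodic shift ν → ∀ A : ℕ,
      (∀ᵐ y ∂ν, ∀ n, 0 < y n ∧ y n ≤ A) → ∀ (b : ℕ → ℕ) (K : ℕ) (δ : ENNReal), 0 < δ →
      (∃ᶠ n : ℕ in atTop, δ ≤ ν {y | ∃ j < K * n, mir y j n = win b 0 n}) →
      ∀ᵐ y ∂ν, ∀ α β : ℝ, pq α = b → pq β = y → ∀ c < 1, PowerLittlewood c α β) ∧
    -- (C) almost every pair
    (∀ (μ ν : Measure (ℕ → ℕ)) (_ : IsProbabilityMeasure μ) (_ : IsProbabilityMeasure ν), Ergodic shift μ →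
      Ergodic shift ν → (∀ (n : ℕ) (w : List ℕ), ν {y | mir y 0 n = w} = μ {x | win x 0 n = w}) → ∀ A : ℕ,
      (∀ᵐ x ∂μ, ∀ n, 0 < x n ∧ x n ≤ A) →
      ((∃ C : ℕ, ∃ᶠ n : ℕ in atTop, ({w : List ℕ | w.length = n ∧ μ {x | win x 0 n = w} ≠ 0}).Finite ∧
          ({w : List ℕ | w.length = n ∧ μ {x | win x 0 n = w} ≠ 0}).ncard ≤ C * n) ∨
        ∃ (K : ℕ) (δ : ENNReal), 0 < δ ∧ ∃ᶠ n : ℕ in atTop, ∃ w : List ℕ, w.length = n ∧
          δ ≤ μ {x | ∃ i < K * n, win x i n = w}) →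
      ∀ᵐ p ∂(μ.prod ν), ∀ α β : ℝ, pq α = p.1 → pq β = p.2 → ∀ c < 1, PowerLittlewood c α β) ∧
    -- (D) generic pairs
    (∀ (s : ℕ → ℕ) (A : ℕ), (∀ n, 0 < s n ∧ s n ≤ A) →
      (∀ i n, ∃ᶠ p in atTop, win s p n = win s i n) →
      ∀ᶠ p : XS s × YS s in residual (XS s × YS s), ∀ α β : ℝ, pq α = p.1.1 → pq β = p.2.1 →
        ∀ c < 1, PowerLittlewood c α β) ∧
    -- (E) all pairs from the morphic images of an episturmian subshift
    (∀ (Z : Type) (s x y : ℕ → Z), H17.EP.Epi s → (∀ u, H17.EP.Fac x u → H17.EP.Fac s u) →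
      (∀ u, H17.EP.Fac y u → H17.EP.Fac s u) → ∀ f : Z → List ℕ, (Set.range f).Finite → (∀ z, f z ≠ []) →
      (∀ z, ∀ e ∈ f z, 0 < e) → ∀ (α β : ℝ) (i0 j0 : ℕ), H17.EP.Reads (pq α) i0 f x →
      H17.EP.Reads (pq β) j0 (fun z => (f z).reverse) y → ∀ c < 1 / 3, PowerLittlewood c α β) := by
  refine ⟨?_, ?_, ?_, ?_, ?_⟩
  · intro α β c κ hα hβ hc0 hc1 hκ h
    exact thmA hα hβ hc0 hc1 hκ h
  · intro ν hν1 hν A hA b K δ hδ h
    haveI := hν1
    exact thmB hν hA b hδ h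
  · intro μ ν hμ1 hν1 hμ hν hm A hA h
    haveI := hμ1
    haveI := hν1
    exact thmC hμ hν hm hA h
  · intro s A hA hs
    exact thmD hs hA
  · intro Z s x y hs hx hy f hf hf0 hfp α β i0 j0 hα hβ c hc
    exact H17.EP.main hs hx hy hf hf0 hfp hα hβ hc

end Pool.Agent.Results.MP_0ea415_nt.MirrorComplexity
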