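import Pool.Agent.H6.LW.Final
import Pool.Agent.H6.LU.Main

/-!
# Near returns and window complexity of the diagonal orbit of a pair with `q ‖qα‖ ‖qβ‖ ≥ c`

All constants depend only on `c`, and only the integers `q ≤ exp (4 M)` are used for the part of
the orbit in `[0,M]²`. Near returns generate totally real cubic fields, neighbouring ones commute,
every chain of near returns is bounded in terms of the window size alone (a uniform and finitary
version of the theorem of Cassels and Swinnerton-Dyer), and a box without near return contains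
quadratically many windows which are pairwise inequivalent up to a factor `K`.
-/

open Real

namespace Pool.Agent.Results.MP_0ea415_nt.WindowComplexity

open Pool.Agent.H6.LW Pool.Agent.H6.LU

/-- For every `K ≥ 1` there are at least `(N / (36 log (10 K)))²` points of `u₀ + [0,N/36]²` such
that the windows of size `N` based at two different ones are not matched with factor `K`. -/
def ManyWindows (α β N : ℝ) (u₀ : ℝ × ℝ) : Prop :=
  ∀ K : ℝ, 1 ≤ K → ∃ S : Finset (ℝ × ℝ), (∀ u ∈ S, InBox u₀ (N / 36) u) ∧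
    (N / (36 * log (10 * K))) ^ 2 ≤ (S.card : ℝ) ∧
    ∀ u ∈ S, ∀ u' ∈ S, u ≠ u' → ¬ ∃ γ, Matches α β N K u u' γ

lemma exists_region' {N : ℝ} {p : ℕ → ℝ × ℝ} {m : ℕ}
    (hp0 : ∀ n, n ≤ m → 0 ≤ (p n).1 ∧ 0 ≤ (p n).2) :
    ∃ M, ∀ n, n ≤ m → InRegion N M (p n) := by
  refine ⟨N + ∑ k ∈ Finset.range (m + 1), ((p k).1 + (p k).2), ?_⟩
  intro n hn
  have h1 : (p n).1 + (p n).2 ≤ ∑ k ∈ Finset.range (m + 1), ((p k).1 + (p k).2) :=
    Finset.single_le_sum (f := fun k => (p k).1 + (p k).2)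
      (fun k hk => by
        have := hp0 k (by have := Finset.mem_range.1 hk; omega)
        exact add_nonneg this.1 this.2) (Finset.mem_range.2 (by omega))
  have h2 := hp0 n hn
  exact ⟨⟨h2.1, by linarith [h2.2]⟩, h2.2, by linarith [h2.1]⟩

theorem result :
    (∀ α β : ℝ, ¬ LittlewoodFor α β → ∃ N₀ : ℝ, ∀ N : ℝ, N₀ ≤ N →
      ∀ (p : ℕ → ℝ × ℝ) (m : ℕ), IsChain (N / 8) p →
        (∀ n, n ≤ m → 0 ≤ (p n).1 ∧ 0 ≤ (p n).2) →
        (exp (exp (2 * N)) ≤ |(p m).1 - (p 0).1| ∨ exp (exp (2 * N)) ≤ |(p m).2 - (p 0).2|) →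
        ∃ n, n ≤ m ∧ ManyWindows α β N (p n)) ∧
    (∀ c : ℝ, 0 < c → ∃ C : ℝ, 0 < C ∧ ∀ α β N M : ℝ, C ≤ N → LowUpTo α β c (exp (4 * M)) →
      (∀ (u₀ : ℝ × ℝ) (γ : Matrix (Fin 3) (Fin 3) ℤ), InRegion N M u₀ → NearReturn α β N u₀ γ →
        Irreducible (γ.charpoly.map (Int.castRingHom ℚ)) ∧ 0 < γ.discr ∧
        ∃ α' β' ν : ℝ, CommonCubic α' β' ∧ act γ ![1, α', β'] = ν • ![1, α', β'] ∧
          |α - α'| ≤ exp (-(2 * u₀.1 + u₀.2 + 3 * N / 2)) ∧
          |β - β'| ≤ exp (-(u₀.1 + 2 * u₀.2 + 3 * N / 2))) ∧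
      (∀ (u₀ u₁ : ℝ × ℝ) (γ γ' : Matrix (Fin 3) (Fin 3) ℤ), InRegion N M u₀ →
        |u₁.1 - u₀.1| ≤ N / 8 → |u₁.2 - u₀.2| ≤ N / 8 → NearReturn α β N u₀ γ →
        NearReturn α β N u₁ γ' → γ * γ' = γ' * γ) ∧
      (∀ (p : ℕ → ℝ × ℝ) (m : ℕ), IsChain (N / 8) p → (∀ n, n ≤ m → InRegion N M (p n)) →
        (exp (exp (2 * N)) ≤ |(p m).1 - (p 0).1| ∨ exp (exp (2 * N)) ≤ |(p m).2 - (p 0).2|) →
        ∃ n, n ≤ m ∧ Good α β N (p n)) ∧
      (∀ t s : ℝ, 0 ≤ t → 0 ≤ s → t + 3 * s + 4 * N ≤ M →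
        ∃ t', t ≤ t' ∧ t' ≤ t + 3 * s + 3 * N ∧ Good α β N (t', s)) ∧
      (∀ t s : ℝ, 0 ≤ t → 0 ≤ s → s + 3 * t + 4 * N ≤ M →
        ∃ s', s ≤ s' ∧ s' ≤ s + 3 * t + 3 * N ∧ Good α β N (t, s'))) ∧
    (∀ (α β N : ℝ) (u₀ : ℝ × ℝ), 0 < N → Good α β N u₀ → ManyWindows α β N u₀) ∧
    (∀ (α β N : ℝ) (u u' : ℝ × ℝ), Matches α β N (exp (posDist u u')) u u' 1) := by
  have mono : ∀ {α β c M M' : ℝ}, M' ≤ M → LowUpTo α β c (exp (4 * M)) →
      LowUpTo α β c (exp (4 * M')) := fun hM h q hq hqM p r =>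
    h q hq (hqM.trans (exp_le_exp.2 (by linarith))) p r
  have reg : ∀ {N M : ℝ} {u : ℝ × ℝ}, InRegion N M u → N ≤ M := fun h => by
    linarith [h.1.1, h.1.2]
  have many : ∀ (α β N : ℝ) (u₀ : ℝ × ℝ), 0 < N → Good α β N u₀ → ManyWindows α β N u₀ :=
    fun α β N u₀ hN hg K hK => exists_many hN hK hg
  suffices hA : _ by
    refine ⟨?_, hA, many, matches_one⟩
    intro α β h
    obtain ⟨c, hc, hlow⟩ := prod_lower h
    obtain ⟨C, hC, hA⟩ := hA c hc
    refine ⟨C, fun N hN p m hp hp0 hfar => ?_⟩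
    obtain ⟨M, hM⟩ := exists_region' (N := N) hp0
    obtain ⟨n, hn, hg⟩ := (hA α β N M hN (hlow _)).2.2.1 p m hp hM hfar
    exact ⟨n, hn, many α β N _ (by linarith) hg⟩
  intro c hc
  obtain ⟨C₀, δ, C, hC₀, hS⟩ := exists_setup hc
  obtain ⟨C₁, δ', C', hC₁, hC', hloc⟩ := exists_loc hc
  have hC3 : 0 < C' ^ 3 := by positivity
  set e := min (1 / 10) (c / (40000000 * C' ^ 3)) with he
  have he0 : 0 < e := by positivity
  have he1 : e ≤ 1 / 10 := min_le_left _ _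
  have hec : 20000000 * e * C' ^ 3 < c := by
    have h1 : e ≤ c / (40000000 * C' ^ 3) := min_le_right _ _
    rw [le_div_iff₀ (by positivity)] at h1
    nlinarith
  obtain ⟨C₂, hC₂, hL⟩ := exists_large C' e he0
  refine ⟨C₀ + C₁ + C₂, by linarith, fun α β N M hN hlow => ⟨?_, ?_, ?_, ?_, ?_⟩⟩
  · intro u₀ γ hu h
    exact near_cubic (hS α β N M (by linarith) (reg hu) hlow) hu h
  · intro u₀ u₁ γ γ' hu h1 h2 h h'
    exact near_commute (hS α β N M (by linarith) (reg hu) hlow) hu h1 h2 h h'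
  · intro p m hp hpM hfar
    have hNM := reg (hpM 0 (Nat.zero_le _))
    exact chain_bounded (hS α β N M (by linarith) hNM hlow)
      (hloc α β M (by linarith) hlow) he0 he1 hC' hec (hL N (by linarith)) hp m hpM hfar
  · intro t s ht hs hM
    exact horizontal (hS α β N _ (by linarith) (by linarith) (mono hM hlow)) ht hs rfl
  · intro t s ht hs hM
    exact vertical (hS α β N _ (by linarith) (by linarith) (mono hM hlow)) ht hs rfl

end Pool.Agent.Results.MP_0ea415_nt.WindowComplexity
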